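import Pool.Agent.Run7.h444.SR.E

/-!
# All functions from even functions (helper444)
-/

set_option autoImplicit false

namespace Run7.h444.SR

open MeasureTheory Set Filter Topology Metric
open scoped ENNReal InnerProductSpace
open Pool.Agent.H212R2.KLS (mu Bdd)
open Pool.Agent.H888R2.KT (LC gs pst gc hs gs_deriv pst_smooth)
open Pool.Agent.H888R2.KT.N9x (W W_le W_eq int_cont mass_pos grad_cont)
open Pool.Agent.R754.KG (E un)
open Pool.Agent.R755.KF (BL PB)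
open Pool.Agent.N483.KM (po LCI CR)
open Run7.h444.SC (Vr Dr SB EvW Dr_le odd_iter cr_mono cr_init)

/-- **the concentration radius decreases** -/
theorem red (p0 CW : ℝ) (hp0 : 0 < p0) (hCW : 0 < CW)
    (HW : ∀ (k : ℕ) (ν : Measure (E k)) (r M C0 : ℝ) (f : E k → ℝ), LCI ν → 0 < r → CR ν p0 r →
      1 ≤ M → BL C0 f → (∀ y, |f y| ≤ 1) → (∫ x, f x ^ 2 ∂ν) - (∫ x, f x ∂ν) ^ 2 ≤
        CW / (M * Real.sqrt M) + M * r ^ 2 / 64 * ∫ x, ‖fderiv ℝ f x‖ ^ 2 ∂ν) :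
    ∃ δ0 Cs : ℝ, 0 < δ0 ∧ 0 < Cs ∧
    ∀ (k : ℕ) (ρ : E k → ℝ), SB ρ → ∀ A s R : ℝ, 0 < A → 0 ≤ s → 0 < R →
    (∀ w : E k, ∫ x, ⟪x, w⟫_ℝ ^ 2 ∂(mu ρ) ≤ s * ‖w‖ ^ 2) → EvW A δ0 (mu ρ) →
    Cs * (A + s) ≤ R ^ 2 → CR (mu ρ) p0 R → CR (mu ρ) p0 (R / 2) := by
  obtain ⟨c, hc, HT⟩ := Pool.Agent.N483.KM.trf_self Pool.Agent.N483.KM.trfR
    Pool.Agent.N483.KM.lciR p0 hp0
  obtain ⟨M, hM⟩ : ∃ M, M = max 1 (16 * CW / c) := ⟨_, rfl⟩
  have hM1 : 1 ≤ M := by rw [hM]; exact le_max_left _ _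
  have hM2 : 16 * CW / c ≤ M := by rw [hM]; exact le_max_right _ _
  have hM0 : 0 < M := by linarith
  have hMs : CW / (M * Real.sqrt M) ≤ c / 16 := by
    have h1 : 1 ≤ Real.sqrt M := by
      rw [Real.one_le_sqrt]
      exact hM1
    rw [div_le_iff₀ (by positivity)]
    rw [div_le_iff₀ hc] at hM2
    have h2 : M ≤ M * Real.sqrt M := le_mul_of_one_le_right hM0.le h1
    nlinarith [mul_le_mul_of_nonneg_left h2 hc.le]
  obtain ⟨m, hm⟩ : ∃ m : ℕ, (1 / 2 : ℝ) ^ m < c / (64 * M) :=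
    exists_pow_lt_of_lt_one (by positivity) (by norm_num)
  obtain ⟨T2, hT2⟩ : ∃ T2, T2 = 768 * M / c := ⟨_, rfl⟩
  have hT20 : 0 < T2 := by rw [hT2]; positivity
  obtain ⟨T, hTd⟩ : ∃ T, T = Real.sqrt T2 := ⟨_, rfl⟩
  have hT : 0 < T := by rw [hTd]; exact Real.sqrt_pos.2 hT20
  have hTT : T ^ 2 = T2 := by rw [hTd, Real.sq_sqrt hT20.le]
  obtain ⟨δ, hδd⟩ : ∃ δ, δ = c / (256 * M * T2) := ⟨_, rfl⟩
  have hδ : 0 < δ := by rw [hδd]; positivity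
  obtain ⟨δ0, hδ0⟩ : ∃ δ0, δ0 = min δ (c / 16) := ⟨_, rfl⟩
  have hp1 : δ0 ≤ δ := by rw [hδ0]; exact min_le_left _ _
  have hp2 : δ0 ≤ c / 16 := by rw [hδ0]; exact min_le_right _ _
  have hpp : 0 < δ0 := by rw [hδ0]; exact lt_min hδ (by positivity)
  obtain ⟨Cs, hCs⟩ : ∃ Cs, Cs = 1024 / c + 4096 * (m + 1) / c := ⟨_, rfl⟩
  have hCs0 : 0 < Cs := by rw [hCs]; positivity
  refine ⟨δ0, Cs, hpp, hCs0, fun k ρ hρ A s R hA hs hR hcov hE0 hRR hCR => ?_⟩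
  by_contra hn
  obtain ⟨F, hF, hF1, hFL, hF2⟩ := HT k (R / 2) (mu ρ) hρ.lci (by positivity) hn
  obtain ⟨L, hLd⟩ : ∃ L, L = 8 / R := ⟨_, rfl⟩
  have hL : 0 < L := by rw [hLd]; positivity
  have hFL' : ∀ y, ‖fderiv ℝ F y‖ ≤ L := fun y => (hFL y).trans (le_of_eq (by
    rw [hLd]; field_simp; norm_num))
  have hLR : L ^ 2 * R ^ 2 = 64 := by
    rw [hLd]; field_simp; norm_num
  obtain ⟨e, o, he, ho, he1, ho1, heL, hoL, hee, hoo, hV⟩ :=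
    Run7.h444.SC.parts hρ hF hF1 hFL'
  have hF2' : c ≤ Vr (mu ρ) F := hF2
  -- the even part
  have heB : BL (max 1 L) e := ⟨he, fun y => (he1 y).trans (le_max_left _ _),
    fun y => (heL y).trans (le_max_right _ _)⟩
  have v1 : Vr (mu ρ) e ≤ δ0 + A * Dr (mu ρ) e := hE0 _ e heB he1 hee
  have v2 : A * Dr (mu ρ) e ≤ A * L ^ 2 := mul_le_mul_of_nonneg_left (Dr_le hρ he heL) hA.le
  have b1 : A + s ≤ R ^ 2 / Cs := by
    rw [le_div_iff₀ hCs0]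
    linarith
  have b2 : L ^ 2 * (A + s) ≤ 64 / Cs := by
    have := mul_le_mul_of_nonneg_left b1 (sq_nonneg L)
    calc L ^ 2 * (A + s) ≤ L ^ 2 * (R ^ 2 / Cs) := this
      _ = L ^ 2 * R ^ 2 / Cs := by ring
      _ = 64 / Cs := by rw [hLR]
  have hCs1 : 1024 / c ≤ Cs := by
    rw [hCs]
    have : 0 ≤ 4096 * ((m : ℝ) + 1) / c := by positivity
    linarith
  have hCs2 : 4096 * ((m : ℝ) + 1) / c ≤ Cs := by
    rw [hCs]
    have : 0 ≤ 1024 / c := by positivity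
    linarith
  have b3 : A * L ^ 2 ≤ c / 16 := by
    have h1 : A * L ^ 2 ≤ 64 / Cs := by
      nlinarith [mul_nonneg (sq_nonneg L) hs]
    have h2 : 64 / Cs ≤ c / 16 := by
      rw [div_le_iff₀ hCs0]
      have := mul_le_mul_of_nonneg_left hCs1 (by positivity : 0 ≤ c / 16)
      have e1 : c / 16 * (1024 / c) = 64 := by field_simp; norm_num
      linarith
    linarith
  -- the weak Poincare inequality for even functions
  have hE : EvW A δ (mu ρ) := fun C f hf hf1 hfe => (hE0 C f hf hf1 hfe).trans (by linarith)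
  have hoB : BL (max 1 L) o := ⟨ho, fun y => (ho1 y).trans (le_max_left _ _),
    fun y => (hoL y).trans (le_max_right _ _)⟩
  obtain ⟨v, C1, hv, w1, vL, vo, vD, vV⟩ := odd_iter hρ hA hs hcov hδ.le hE hT hL hoB ho1 hoL hoo m
  have hw : Vr (mu ρ) v ≤ CW / (M * Real.sqrt M) + M * R ^ 2 / 64 * Dr (mu ρ) v :=
    HW k (mu ρ) R M C1 v hρ.lci hR hCR hM1 hv w1
  rw [hTT] at vD
  have d1 : M * R ^ 2 / 64 * Dr (mu ρ) v ≤ c / 16 := by
    have h1 := mul_le_mul_of_nonneg_left vD (by positivity : 0 ≤ M * R ^ 2 / 64)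
    have e1 : M * R ^ 2 / 64 * ((1 / 2) ^ m * L ^ 2 + 2 * (L ^ 2 * (2 * T2 * δ + 6 / T2))) =
        M * (L ^ 2 * R ^ 2) / 64 * ((1 / 2) ^ m + 2 * (2 * T2 * δ + 6 / T2)) := by ring
    rw [e1, hLR] at h1
    have e2 : 2 * (2 * T2 * δ + 6 / T2) = c / (32 * M) := by
      rw [hδd, hT2]
      field_simp
      norm_num
    rw [e2] at h1
    have e3 : M * 64 / 64 * (c / (64 * M) + c / (32 * M)) = 3 * c / 64 := by
      field_simp
      norm_num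
    have h2 : M * 64 / 64 * ((1 / 2) ^ m + c / (32 * M)) ≤ M * 64 / 64 * (c / (64 * M) + c / (32 * M)) :=
      mul_le_mul_of_nonneg_left (by linarith) (by positivity)
    linarith
  have d2 : 2 * (2 * A + 2 * s) * m * L ^ 2 ≤ c / 16 := by
    have h4 : 2 * (2 * A + 2 * s) * m * L ^ 2 = 4 * m * (L ^ 2 * (A + s)) := by ring
    have h6 : 4 * m * (L ^ 2 * (A + s)) ≤ 4 * m * (64 / Cs) :=
      mul_le_mul_of_nonneg_left b2 (by positivity)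
    have h7 : 4 * m * (64 / Cs) ≤ c / 16 := by
      have e1 : 4 * m * (64 / Cs) = 256 * m / Cs := by ring
      rw [e1, div_le_iff₀ hCs0]
      have h8 := mul_le_mul_of_nonneg_left hCs2 (by positivity : 0 ≤ c / 16)
      have e2 : c / 16 * (4096 * ((m : ℝ) + 1) / c) = 256 * (m + 1) := by
        field_simp
        ring
      linarith
    linarith
  rw [hV] at hF2'
  linarith

/-- **weak Poincare inequality for all functions from the one for even functions** -/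
theorem weak : ∃ δ0 Ca : ℝ, 0 < δ0 ∧ 0 < Ca ∧ ∀ (k : ℕ) (ρ : E k → ℝ), SB ρ →
    ∀ A s : ℝ, 0 < A → 0 ≤ s → (∀ w : E k, ∫ x, ⟪x, w⟫_ℝ ^ 2 ∂(mu ρ) ≤ s * ‖w‖ ^ 2) →
    EvW A δ0 (mu ρ) → ∀ (C0 : ℝ) (f : E k → ℝ), BL C0 f → (∀ y, |f y| ≤ 1) →
    Vr (mu ρ) f ≤ 1 / 100 + Ca * (A + s) * Dr (mu ρ) f := by
  obtain ⟨p0, CW, hp0, hp4, hCW, HW⟩ := Pool.Agent.N483.KM.wpmR
  obtain ⟨p, Cs, hp, hCs, HR⟩ := red p0 CW hp0 hCW HW
  obtain ⟨M, hM⟩ : ∃ M, M = max 1 (100 * CW) := ⟨_, rfl⟩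
  have hM1 : 1 ≤ M := by rw [hM]; exact le_max_left _ _
  have hM2 : 100 * CW ≤ M := by rw [hM]; exact le_max_right _ _
  have hM0 : 0 < M := by linarith
  have hMs : CW / (M * Real.sqrt M) ≤ 1 / 100 := by
    have h1 : 1 ≤ Real.sqrt M := by
      rw [Real.one_le_sqrt]
      exact hM1
    rw [div_le_iff₀ (by positivity)]
    have h2 : M ≤ M * Real.sqrt M := le_mul_of_one_le_right hM0.le h1
    linarith
  refine ⟨p, M / 64 * Cs, hp, by positivity, fun k ρ hρ A s hA hs hcov hS C0 f hf hf1 => ?_⟩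
  obtain ⟨B0, hB0, hPB⟩ := hρ.pb
  have hprob := hPB.prob
  obtain ⟨Rm, hRm⟩ : ∃ Rm, Rm = Real.sqrt (Cs * (A + s)) := ⟨_, rfl⟩
  have hRm0 : 0 < Rm := by rw [hRm]; exact Real.sqrt_pos.2 (by positivity)
  have hRm2 : Rm ^ 2 = Cs * (A + s) := by rw [hRm, Real.sq_sqrt (by positivity)]
  obtain ⟨R0, hR0⟩ : ∃ R0, R0 = 2 * B0 + 1 := ⟨_, rfl⟩
  have hR0p : 0 < R0 := by rw [hR0]; positivity
  have hind : ∀ j : ℕ, CR (mu ρ) p0 (max (R0 * (1 / 2) ^ j) Rm) := by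
    intro j
    induction j with
    | zero =>
      refine cr_mono (le_max_left _ _) (cr_init hPB hp0 ?_)
      rw [hR0]
      linarith
    | succ j ih =>
      have h1 : Rm ^ 2 ≤ (max (R0 * (1 / 2) ^ j) Rm) ^ 2 :=
        pow_le_pow_left₀ hRm0.le (le_max_right _ _) 2
      rw [hRm2] at h1
      have h2 := HR k ρ hρ A s _ hA hs (lt_max_of_lt_right hRm0) hcov hS h1 ih
      refine cr_mono ?_ h2
      rw [pow_succ]
      rcases le_total (R0 * (1 / 2) ^ j) Rm with h | h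
      · rw [max_eq_right h]
        exact (by linarith : Rm / 2 ≤ Rm).trans (le_max_right _ _)
      · rw [max_eq_left h]
        refine le_trans (le_of_eq ?_) (le_max_left _ _)
        ring
  obtain ⟨j, hj⟩ : ∃ j : ℕ, (1 / 2 : ℝ) ^ j < Rm / R0 :=
    exists_pow_lt_of_lt_one (by positivity) (by norm_num)
  have hCR : CR (mu ρ) p0 Rm := by
    have h1 := hind j
    have h2 : R0 * (1 / 2) ^ j ≤ Rm := by
      rw [lt_div_iff₀ hR0p] at hj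
      linarith
    rwa [max_eq_right h2] at h1
  have h1 := HW k (mu ρ) Rm M C0 f hρ.lci hRm0 hCR hM1 hf hf1
  rw [hRm2] at h1
  have h2 : Vr (mu ρ) f ≤ CW / (M * Real.sqrt M) + M * (Cs * (A + s)) / 64 * Dr (mu ρ) f := h1
  have e : M / 64 * Cs * (A + s) * Dr (mu ρ) f =
    M * (Cs * (A + s)) / 64 * Dr (mu ρ) f := by ring
  rw [e]
  linarith

/-- **weak Poincare inequality from the concentration of the sets which are invariant under the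
point reflection and the reflections in hyperplanes** -/
theorem weak_refl : ∃ p Ca : ℝ, 0 < p ∧ 0 < Ca ∧ ∀ (k q : ℕ) (ρ : E k → ℝ)
    (e : Fin q → E k) (g : Fin q → E k ≃ₗᵢ[ℝ] E k) (r s : ℝ), SB ρ → Run7.h444.RC.Refl ρ e g s →
    0 < r → 0 < s → (∀ w : E k, ∫ x, ⟪x, w⟫_ℝ ^ 2 ∂(mu ρ) ≤ s * ‖w‖ ^ 2) →
    Run7.h444.RC.SymG (gg g) (mu ρ) p r → ∀ (C0 : ℝ) (f : E k → ℝ), BL C0 f → (∀ y, |f y| ≤ 1) →
    Vr (mu ρ) f ≤ 1 / 100 + Ca * (r ^ 2 + s) * Dr (mu ρ) f := by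
  obtain ⟨δ0, Ca, hδ0, hCa, H⟩ := weak
  obtain ⟨K, hK⟩ : ∃ K, K = 2048 / (3 * δ0 ^ 2) + 16 := ⟨_, rfl⟩
  have hK0 : 0 < K := by rw [hK]; positivity
  refine ⟨3 * δ0 ^ 2 / 4096, Ca * (4 / 3 * K + 1), by positivity, by positivity,
    fun k q ρ e g r s hρ hR hr hs hcov hS C0 f hf hf1 => ?_⟩
  obtain ⟨A, hA⟩ : ∃ A, A = 4 / 3 * (2048 * r ^ 2 / (3 * δ0 ^ 2) + 16 * s) := ⟨_, rfl⟩
  have hA0 : 0 < A := by rw [hA]; positivity
  have hE := even_weak hρ hR hs hr hδ0 hS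
  rw [← hA] at hE
  have h1 := H k ρ hρ A s hA0 hs.le hcov hE C0 f hf hf1
  have hD := Run7.h444.SC.Dr_nonneg (ν := mu ρ) f
  have h2 : A + s ≤ (4 / 3 * K + 1) * (r ^ 2 + s) := by
    have e1 : 2048 * r ^ 2 / (3 * δ0 ^ 2) + 16 * s ≤ K * (r ^ 2 + s) := by
      have e2 : K * (r ^ 2 + s) = 2048 * r ^ 2 / (3 * δ0 ^ 2) + 16 * s +
          (16 * r ^ 2 + 2048 / (3 * δ0 ^ 2) * s) := by rw [hK]; ring
      rw [e2]
      have : 0 ≤ 16 * r ^ 2 + 2048 / (3 * δ0 ^ 2) * s := by positivity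
      linarith
    rw [hA]
    nlinarith [sq_nonneg r]
  have h3 : Ca * (A + s) * Dr (mu ρ) f ≤ Ca * (4 / 3 * K + 1) * (r ^ 2 + s) * Dr (mu ρ) f := by
    refine mul_le_mul_of_nonneg_right ?_ hD
    rw [mul_assoc]
    exact mul_le_mul_of_nonneg_left h2 hCa.le
  linarith

end Run7.h444.SR
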