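import Pool.Agent.Run7.h444.SR.F
import Pool.Agent.Y151.PV.Hyp
import Pool.Agent.W695.KH.Per

/-!
# Perimeter and central sections (helper444)
-/

set_option autoImplicit false

namespace Run7.h444.SR

open MeasureTheory Set Filter Topology
open scoped ENNReal InnerProductSpace Pointwise
open Pool.Agent.W695.KH (Eu EU EV VV Sm Pot Uu WPo sec PerLe sec_bound perim)
open Pool.Agent.W932.KH (closure_ae EV_scale q_max q_pos q_integrable)
open Pool.Agent.R754.KG (E un)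

variable {n : ℕ}

/-- from the weak Poincare inequality to the perimeter -/
theorem perim_of {Ω : Set (E n)} (ho : IsOpen Ω) (hc : Convex ℝ Ω) (hb : Bornology.IsBounded Ω)
    (h0 : (0 : E n) ∈ Ω) {C : ℝ} (hC : 0 < C)
    (hP : ∀ (v : E n → ℝ) (L : ℝ), ContDiff ℝ 1 v → (∀ x, |v x| ≤ 1) →
      (∀ x, ‖fderiv ℝ v x‖ ≤ L) → VV Ω v ≤ 1 / 100 + C * EV Ω fun x => ‖fderiv ℝ v x‖ ^ 2)
    {T : Set (E n)} (hT : MeasurableSet T) (hTΩ : T ⊆ Ω) (hvol : volume T = volume Ω / 2) {P : ℝ}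
    (hPer : PerLe Ω T P) : (volume Ω).toReal ≤ 3 * Real.sqrt (200 * C) * P := by
  refine perim (Fin n) Ω ho hc hb h0 T hT hTΩ hvol P hPer (Real.sqrt (200 * C))
    (Real.sqrt_pos.2 (by positivity)) fun r hr0 hr1 f L M hf hf12 hV => ?_
  have hDc : IsCompact (r • closure Ω) :=
    (Metric.isCompact_of_isClosed_isBounded isClosed_closure hb.closure).smul r
  have hDv : Convex ℝ (r • closure Ω) := hc.closure.smul r
  have hDp : 0 < volume (r • closure Ω) := by
    have h1 : volume (r • closure Ω) =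
        ENNReal.ofReal |r ^ Module.finrank ℝ (E n)| * volume (closure Ω) :=
      Measure.addHaar_smul volume r (closure Ω)
    rw [h1]
    have h2 : 0 < volume (closure Ω) :=
      (ho.measure_pos volume ⟨0, h0⟩).trans_le (measure_mono subset_closure)
    have h3 : 0 < r ^ Module.finrank ℝ (E n) := pow_pos hr0 _
    exact ENNReal.mul_pos (ENNReal.ofReal_pos.2 (by positivity)).ne' h2.ne'
  have hP' : ∀ (v : E n → ℝ) (L : ℝ), ContDiff ℝ 1 v → (∀ x, |v x| ≤ 1) →
      (∀ x, ‖fderiv ℝ v x‖ ≤ L) → VV (r • closure Ω) v ≤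
        1 / 100 + C * EV (r • closure Ω) fun x => ‖fderiv ℝ v x‖ ^ 2 := by
    intro v L hv hv1 hvL
    have hL : 0 ≤ L := (norm_nonneg _).trans (hvL 0)
    have hd : ∀ x, ‖fderiv ℝ (fun x => v (r • x)) x‖ = r * ‖fderiv ℝ v (r • x)‖ := by
      intro x
      have e1 : fderiv ℝ (fun x : E n => v (r • x)) x = r • fderiv ℝ v (r • x) :=
        fderiv_comp_smul r
      rw [e1, norm_smul, Real.norm_eq_abs, abs_of_pos hr0]
    have h1 := hP (fun x => v (r • x)) L (hv.comp (contDiff_const_smul r)) (fun x => hv1 _)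
      (fun x => by
        rw [hd]
        calc r * ‖fderiv ℝ v (r • x)‖ ≤ 1 * L :=
              mul_le_mul hr1.le (hvL _) (norm_nonneg _) zero_le_one
          _ = L := one_mul L)
    have e1 : VV (r • closure Ω) v = VV Ω fun x => v (r • x) := by
      unfold VV
      rw [EV_scale ho hc r hr0, EV_scale ho hc r hr0]
    have e2 : EV Ω (fun x => ‖fderiv ℝ (fun x => v (r • x)) x‖ ^ 2) =
        r ^ 2 * EV (r • closure Ω) fun x => ‖fderiv ℝ v x‖ ^ 2 := by
      rw [EV_scale ho hc r hr0]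
      simp only [hd, mul_pow]
      unfold EV
      rw [integral_const_mul]
      ring
    have e3 : 0 ≤ EV (r • closure Ω) fun x => ‖fderiv ℝ v x‖ ^ 2 := by
      unfold EV
      exact div_nonneg (integral_nonneg fun x => sq_nonneg _) ENNReal.toReal_nonneg
    rw [e2] at h1
    rw [e1]
    have e4 : r ^ 2 * EV (r • closure Ω) (fun x => ‖fderiv ℝ v x‖ ^ 2) ≤
        EV (r • closure Ω) fun x => ‖fderiv ℝ v x‖ ^ 2 :=
      mul_le_of_le_one_left e3 (pow_le_one₀ hr0.le hr1.le)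
    have e5 := mul_le_mul_of_nonneg_left e4 hC.le
    linarith
  have h1 := Pool.Agent.W695.KH.body (Fin n) (r • closure Ω) hDc hDv hDp (1 / 25) (1 / (50 * C))
    (by norm_num) (by positivity) (Run7.h444.SC.wpo (r • closure Ω) hDc hDv hDp C hC hP') f L M hf
    hf12 (by linarith)
  rw [mul_pow, Real.sq_sqrt (by positivity)]
  have h3 : 4 / (1 / (50 * C)) = 200 * C := by
    field_simp
    norm_num
  rw [h3] at h1
  exact h1

/-- the area of a central section is not smaller than the volume divided by the width -/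
theorem sec_lower {Ω : Set (E n)} (ho : IsOpen Ω) (hc : Convex ℝ Ω) (hb : Bornology.IsBounded Ω)
    (h0 : (0 : E n) ∈ Ω) (hsym : ∀ x ∈ Ω, -x ∈ Ω) {a : E n} (ha : ‖a‖ = 1) :
    (volume Ω).toReal ≤
      16 / 3 * Real.sqrt (EV Ω fun x => ⟪a, x⟫_ℝ ^ 2) * (sec Ω a).toReal := by
  obtain ⟨Cs, hCs, hs⟩ := sec_bound
  obtain ⟨hfin, -, h3⟩ := hs (Fin n) Ω ho hc hb h0 hsym a ha
  obtain ⟨s, hsd⟩ : ∃ s, s = EV Ω fun x => ⟪a, x⟫_ℝ ^ 2 := ⟨_, rfl⟩
  have hspos : 0 < s := by rw [hsd]; exact q_pos ho hb h0 a ha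
  have hVfin : volume Ω ≠ ⊤ := hb.measure_lt_top.ne
  have hV : 0 < (volume Ω).toReal :=
    ENNReal.toReal_pos (ho.measure_pos volume ⟨0, h0⟩).ne' hVfin
  rw [← hsd]
  have hss : 0 < Real.sqrt s := Real.sqrt_pos.2 hspos
  obtain ⟨ε, hε⟩ : ∃ ε, ε = 2 * Real.sqrt s := ⟨_, rfl⟩
  have hε0 : 0 < ε := by rw [hε]; positivity
  have hic : Continuous fun x : E n => ⟪a, x⟫_ℝ := by fun_prop
  have hm : Measurable fun x : E n => ⟪a, x⟫_ℝ := hic.measurable
  obtain ⟨X1, hX1⟩ : ∃ X : Set (E n), X = Ω ∩ {x | 0 < ⟪a, x⟫_ℝ ∧ ⟪a, x⟫_ℝ ≤ ε} := ⟨_, rfl⟩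
  obtain ⟨X2, hX2⟩ : ∃ X : Set (E n), X = Ω ∩ {x | -ε ≤ ⟪a, x⟫_ℝ ∧ ⟪a, x⟫_ℝ < 0} := ⟨_, rfl⟩
  obtain ⟨X3, hX3⟩ : ∃ X : Set (E n), X = {x | ⟪a, x⟫_ℝ = 0} := ⟨_, rfl⟩
  obtain ⟨X4, hX4⟩ : ∃ X : Set (E n), X = Ω ∩ {x | ε ^ 2 ≤ ⟪a, x⟫_ℝ ^ 2} := ⟨_, rfl⟩
  have hcov : Ω ⊆ (X1 ∪ X2) ∪ (X3 ∪ X4) := by
    intro x hx
    rcases lt_trichotomy ⟪a, x⟫_ℝ 0 with h | h | h
    · by_cases h' : -ε ≤ ⟪a, x⟫_ℝ
      · left; right
        rw [hX2]
        exact ⟨hx, h', h⟩
      · right; right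
        rw [hX4]
        refine ⟨hx, ?_⟩
        show ε ^ 2 ≤ ⟪a, x⟫_ℝ ^ 2
        nlinarith
    · right; left
      rw [hX3]
      exact h
    · by_cases h' : ⟪a, x⟫_ℝ ≤ ε
      · left; left
        rw [hX1]
        exact ⟨hx, h, h'⟩
      · right; right
        rw [hX4]
        refine ⟨hx, ?_⟩
        show ε ^ 2 ≤ ⟪a, x⟫_ℝ ^ 2
        nlinarith
  have v1 : volume X1 ≤ ENNReal.ofReal ε * sec Ω a := by rw [hX1]; exact h3 ε hε0
  have v2 : volume X2 = volume X1 := by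
    have hmp : MeasurePreserving (fun x : E n => -x) volume volume :=
      Measure.measurePreserving_neg volume
    have hX1m : MeasurableSet X1 := by
      rw [hX1]
      exact ho.measurableSet.inter ((measurableSet_lt measurable_const hm).inter
        (measurableSet_le hm measurable_const))
    rw [← hmp.measure_preimage hX1m.nullMeasurableSet]
    congr 1
    ext x
    rw [hX1, hX2]
    constructor
    · rintro ⟨h1, h2, h3⟩
      refine ⟨hsym x h1, ?_⟩
      show 0 < ⟪a, -x⟫_ℝ ∧ ⟪a, -x⟫_ℝ ≤ ε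
      rw [inner_neg_right]
      exact ⟨by linarith, by linarith⟩
    · rintro ⟨h1, h2, h3⟩
      have h1' := hsym (-x) h1
      rw [neg_neg] at h1'
      rw [inner_neg_right] at h2 h3
      exact ⟨h1', by linarith, by linarith⟩
  have v3 : volume X3 = 0 := by
    have ha0 : a ≠ 0 := by
      rintro rfl
      rw [norm_zero] at ha
      exact zero_ne_one ha
    have h1 : X3 = ((LinearMap.ker (innerSL ℝ a).toLinearMap : Submodule ℝ (E n)) : Set (E n)) := by
      rw [hX3]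
      ext x
      simp
    rw [h1]
    refine Measure.addHaar_submodule volume _ fun htop => ?_
    have h2 : a ∈ (LinearMap.ker (innerSL ℝ a).toLinearMap : Submodule ℝ (E n)) := by
      rw [htop]
      trivial
    have h3 : ⟪a, a⟫_ℝ = 0 := by simpa using h2
    rw [real_inner_self_eq_norm_sq, ha] at h3
    norm_num at h3
  have v4 : ENNReal.ofReal (ε ^ 2) * volume X4 ≤ ENNReal.ofReal (s * (volume Ω).toReal) := by
    have hq := q_integrable ho hb a
    have h1 := mul_meas_ge_le_lintegral₀ (μ := volume.restrict Ω)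
      (f := fun x : E n => ENNReal.ofReal (⟪a, x⟫_ℝ ^ 2)) (by fun_prop) (ENNReal.ofReal (ε ^ 2))
    rw [← ofReal_integral_eq_lintegral_ofReal hq
      (Eventually.of_forall fun x => sq_nonneg _)] at h1
    have h2 : ∫ x in Ω, ⟪a, x⟫_ℝ ^ 2 = s * (volume Ω).toReal := by
      rw [hsd]
      unfold EV
      field_simp
    rw [h2] at h1
    have h4 : {x : E n | ENNReal.ofReal (ε ^ 2) ≤ ENNReal.ofReal (⟪a, x⟫_ℝ ^ 2)} =
        {x | ε ^ 2 ≤ ⟪a, x⟫_ℝ ^ 2} := by
      ext x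
      exact ENNReal.ofReal_le_ofReal_iff (sq_nonneg _)
    have hm4 : MeasurableSet {x : E n | ε ^ 2 ≤ ⟪a, x⟫_ℝ ^ 2} :=
      measurableSet_le measurable_const (hm.pow_const 2)
    rw [h4, Measure.restrict_apply hm4, inter_comm, ← hX4] at h1
    exact h1
  have hX4fin : volume X4 ≠ ⊤ := by
    rw [hX4]
    exact ((measure_mono inter_subset_left).trans_lt hb.measure_lt_top).ne
  have w4 : (volume X4).toReal ≤ (volume Ω).toReal / 4 := by
    have h1 := ENNReal.toReal_mono ENNReal.ofReal_ne_top v4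
    rw [ENNReal.toReal_mul, ENNReal.toReal_ofReal (by positivity),
      ENNReal.toReal_ofReal (by positivity)] at h1
    have h2 : ε ^ 2 = 4 * s := by rw [hε, mul_pow, Real.sq_sqrt hspos.le]; norm_num
    rw [h2] at h1
    have h3 : s * (4 * (volume X4).toReal) ≤ s * (volume Ω).toReal := by linarith
    have h4 := le_of_mul_le_mul_left h3 hspos
    linarith
  have w1 : (volume X1).toReal ≤ ε * (sec Ω a).toReal := by
    have h1 := ENNReal.toReal_mono (ENNReal.mul_ne_top ENNReal.ofReal_ne_top hfin) v1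
    rwa [ENNReal.toReal_mul, ENNReal.toReal_ofReal hε0.le] at h1
  have hX1fin : volume X1 ≠ ⊤ := ne_top_of_le_ne_top
    (ENNReal.mul_ne_top ENNReal.ofReal_ne_top hfin) v1
  have hsum : volume Ω ≤ (volume X1 + volume X1) + volume X4 := by
    calc volume Ω ≤ volume ((X1 ∪ X2) ∪ (X3 ∪ X4)) := measure_mono hcov
      _ ≤ volume (X1 ∪ X2) + volume (X3 ∪ X4) := measure_union_le _ _
      _ ≤ (volume X1 + volume X2) + (volume X3 + volume X4) :=
          add_le_add (measure_union_le _ _) (measure_union_le _ _)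
      _ = _ := by rw [v2, v3, zero_add]
  have hreal := ENNReal.toReal_mono (ENNReal.add_ne_top.2 ⟨ENNReal.add_ne_top.2
    ⟨hX1fin, hX1fin⟩, hX4fin⟩) hsum
  rw [ENNReal.toReal_add (ENNReal.add_ne_top.2 ⟨hX1fin, hX1fin⟩) hX4fin,
    ENNReal.toReal_add hX1fin hX1fin] at hreal
  rw [hε] at w1
  nlinarith

theorem sec_congr (Ω : Set (E n)) {W W' : Submodule ℝ (E n)} (h : W = W') :
    volume {y : Wᗮ | (y : E n) ∈ Ω} = volume {y : W'ᗮ | (y : E n) ∈ Ω} := by
  subst h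
  rfl

theorem sec_smul (Ω : Set (E n)) {c : ℝ} (hc : c ≠ 0) (b : E n) : sec Ω (c • b) = sec Ω b :=
  sec_congr Ω (Submodule.span_singleton_smul_eq (IsUnit.mk0 c hc) b)

end Run7.h444.SR
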