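import Pool.Agent.Run7.h444.SR.G

/-!
# Central sections of symmetric bodies with reflections (helper444)
-/

set_option autoImplicit false

namespace Run7.h444.SR

open MeasureTheory Set Filter Topology
open scoped ENNReal InnerProductSpace Pointwise
open Pool.Agent.H212R2.KLS (mu Bdd)
open Pool.Agent.W695.KH (Eu EU EV VV Sm Pot Uu WPo sec PerLe sec_bound perim per perLe_toReal)
open Pool.Agent.W932.KH (closure_ae EV_scale q_max q_pos q_integrable)
open Pool.Agent.R754.KG (E un)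
open Pool.Agent.R755.KF (BL PB)
open Run7.h444.SC (Vr Dr dn mu_dn dn_sb SB)
open Run7.h444.RC (Refl refl_of SymG)

variable {n q : ℕ}

theorem mu_real {Ω : Set (E n)} (ho : IsOpen Ω) (hc : Convex ℝ Ω) (hK : IsCompact (closure Ω))
    (hvol : 0 < volume (closure Ω)) {A : Set (E n)} (hA : MeasurableSet A) :
    (mu (dn (closure Ω))).real A = (volume (A ∩ Ω)).toReal / (volume Ω).toReal := by
  have h1 : volume (closure Ω) = volume Ω := measure_congr (closure_ae ho hc)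
  have h2 : volume (A ∩ closure Ω) = volume (A ∩ Ω) :=
    measure_congr ((ae_eq_refl A).inter (closure_ae ho hc))
  rw [Measure.real, mu_dn hK hvol, Measure.smul_apply, Measure.restrict_apply hA, smul_eq_mul,
    ENNReal.toReal_mul, ENNReal.toReal_inv, h1, h2, inv_mul_eq_div]

theorem main : ∃ p C : ℝ, 0 < p ∧ 0 < C ∧ ∀ (n q : ℕ), 1 ≤ n → ∀ Ω : Set (E n), IsOpen Ω →
    Convex ℝ Ω → Bornology.IsBounded Ω → Ω.Nonempty → (∀ x ∈ Ω, -x ∈ Ω) →
    ∀ e : Fin q → E n, Orthonormal ℝ e → (∀ j, ∀ x ∈ Ω, x - (2 * ⟪e j, x⟫_ℝ) • e j ∈ Ω) →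
    ∀ r D : ℝ, 0 < r → 0 ≤ D →
    (∃ b : E n, b ≠ 0 ∧ ENNReal.ofReal r * sec Ω b ≤ ENNReal.ofReal D * volume Ω) →
    (∀ S : Set (E n), MeasurableSet S → S ⊆ Ω → (∀ x ∈ S, -x ∈ S) →
      (∀ j, ∀ x ∈ S, x - (2 * ⟪e j, x⟫_ℝ) • e j ∈ S) → volume Ω / 2 ≤ volume S →
      volume (Ω \ Metric.thickening r S) ≤ ENNReal.ofReal p * volume Ω) →
    ∃ a : E n, a ≠ 0 ∧ ∀ T : Set (E n), MeasurableSet T → T ⊆ Ω → volume T = volume Ω / 2 →
      sec Ω a ≤ ENNReal.ofReal (C * (1 + D)) * per T Ω := by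
  obtain ⟨p, Ca, hp, hCa, H⟩ := weak_refl
  obtain ⟨Cs, hCs, hs⟩ := sec_bound
  obtain ⟨κ, hκ⟩ : ∃ κ, κ = Real.sqrt (200 * Ca) := ⟨_, rfl⟩
  have hκ0 : 0 < κ := by rw [hκ]; positivity
  refine ⟨p, 18 * Real.sqrt Cs * κ, hp, by positivity,
    fun n q hn Ω ho hc hb hne hsym e he hinv r D hr hD hsec hS => ?_⟩
  have hneF : Nonempty (Fin n) := ⟨⟨0, by omega⟩⟩
  have h0 : (0 : E n) ∈ Ω := by
    obtain ⟨x, hx⟩ := hne
    have h := hc hx (hsym x hx) (by norm_num : (0 : ℝ) ≤ 1 / 2)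
      (by norm_num : (0 : ℝ) ≤ 1 / 2) (by norm_num)
    rwa [smul_neg, add_neg_cancel] at h
  have hK : IsCompact (closure Ω) :=
    Metric.isCompact_of_isClosed_isBounded isClosed_closure hb.closure
  have hcK : Convex ℝ (closure Ω) := hc.closure
  have hVe : volume (closure Ω) = volume Ω := measure_congr (closure_ae ho hc)
  have hVpos : 0 < volume Ω := ho.measure_pos volume ⟨0, h0⟩
  have hVfin : volume Ω ≠ ⊤ := hb.measure_lt_top.ne
  have hvolK : 0 < volume (closure Ω) := by rw [hVe]; exact hVpos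
  obtain ⟨V, hV⟩ : ∃ V, V = (volume Ω).toReal := ⟨_, rfl⟩
  have hV0 : 0 < V := by rw [hV]; exact ENNReal.toReal_pos hVpos.ne' hVfin
  have hVof : volume Ω = ENNReal.ofReal V := by rw [hV, ENNReal.ofReal_toReal hVfin]
  have hVhalf : volume Ω / 2 = ENNReal.ofReal (V / 2) := by
    rw [hVof, ENNReal.ofReal_div_of_pos (by norm_num), ENNReal.ofReal_ofNat]
  have hsymK : ∀ x ∈ closure Ω, -x ∈ closure Ω := fun x hx =>
    map_mem_closure continuous_neg hx fun y hy => hsym y hy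
  have hinvK : ∀ j, ∀ x ∈ closure Ω, x - (2 * ⟪e j, x⟫_ℝ) • e j ∈ closure Ω := fun j x hx =>
    map_mem_closure (f := fun x : E n => x - (2 * ⟪e j, x⟫_ℝ) • e j) (by fun_prop) hx
      fun y hy => hinv j y hy
  have hsb : SB (dn (closure Ω)) := dn_sb hK hcK hvolK hsymK
  have hmu := mu_dn hK hvolK
  have hint : ∀ f : E n → ℝ, ∫ x, f x ∂(mu (dn (closure Ω))) = EV Ω f := by
    intro f
    rw [hmu, integral_smul_measure, ENNReal.toReal_inv, smul_eq_mul, ← Pool.Agent.Y151.PV.EV_closure ho hc]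
    unfold EV
    rw [inv_mul_eq_div]
  obtain ⟨a, ha, hmax⟩ := q_max (Ω := Ω) ho hb
  obtain ⟨s, hsd⟩ : ∃ s, s = EV Ω (fun x => ⟪a, x⟫_ℝ ^ 2) := ⟨_, rfl⟩
  have hspos : 0 < s := by rw [hsd]; exact q_pos ho hb h0 a ha
  have hss : 0 < Real.sqrt s := Real.sqrt_pos.2 hspos
  rw [← hsd] at hmax
  obtain ⟨g, hg⟩ := refl_of hK hvolK he hinvK (s := s) (fun j => by
    rw [← hmu, hint]
    have := hmax (e j)
    rw [he.1 j] at this
    linarith)
  have hcov : ∀ w : E n, ∫ x, ⟪x, w⟫_ℝ ^ 2 ∂(mu (dn (closure Ω))) ≤ s * ‖w‖ ^ 2 := by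
    intro w
    rw [hint]
    simp only [real_inner_comm]
    exact hmax w
  -- concentration
  have hconc : SymG (gg g) (mu (dn (closure Ω))) p r := by
    intro T hT hTg hT2
    rw [mu_real ho hc hK hvolK hT, ← hV, le_div_iff₀ hV0] at hT2
    have hTf : volume (T ∩ Ω) ≠ ⊤ := ((measure_mono inter_subset_right).trans_lt
      hb.measure_lt_top).ne
    have h1 := hS (T ∩ Ω) (hT.inter ho.measurableSet) inter_subset_right
      (fun x hx => ⟨hTg 0 x hx.1, hsym x hx.2⟩)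
      (fun j x hx => ⟨by
        have := hTg j.succ x hx.1
        have e1 : gg g j.succ x = g j x := rfl
        rw [e1, hg.eq] at this
        exact this, hinv j x hx.2⟩) (by
        rw [hVhalf, ← ENNReal.ofReal_toReal hTf]
        refine ENNReal.ofReal_le_ofReal ?_
        linarith)
    obtain ⟨Y, hY⟩ : ∃ Y, Y = Metric.thickening r T := ⟨_, rfl⟩
    have hYm : MeasurableSet Y := by rw [hY]; exact Metric.isOpen_thickening.measurableSet
    rw [← hY, mu_real ho hc hK hvolK hYm, ← hV, le_div_iff₀ hV0]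
    have h2 : volume (Ω \ Y) ≤ ENNReal.ofReal (p * V) := by
      rw [ENNReal.ofReal_mul hp.le, ← hVof]
      refine (measure_mono ?_).trans h1
      rw [hY]
      exact sdiff_subset_sdiff_right (Metric.thickening_subset_of_subset r inter_subset_left)
    have h3 : volume Ω ≤ volume (Y ∩ Ω) + volume (Ω \ Y) := by
      refine (measure_mono fun x hx => ?_).trans (measure_union_le _ _)
      by_cases h : x ∈ Y
      · exact Or.inl ⟨h, hx⟩
      · exact Or.inr ⟨hx, h⟩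
    have hYf : volume (Y ∩ Ω) ≠ ⊤ := ((measure_mono inter_subset_right).trans_lt
      hb.measure_lt_top).ne
    have h4 := ENNReal.toReal_mono (ENNReal.add_ne_top.2 ⟨hYf, ENNReal.ofReal_ne_top⟩)
      (h3.trans (add_le_add_right h2 _))
    rw [ENNReal.toReal_add hYf ENNReal.ofReal_ne_top, ENNReal.toReal_ofReal (by positivity),
      ← hV] at h4
    linarith
  obtain ⟨C1, hC1⟩ : ∃ C1, C1 = Ca * (r ^ 2 + s) := ⟨_, rfl⟩
  have hC10 : 0 < C1 := by rw [hC1]; positivity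
  have hP : ∀ (v : E n → ℝ) (L : ℝ), ContDiff ℝ 1 v → (∀ x, |v x| ≤ 1) →
      (∀ x, ‖fderiv ℝ v x‖ ≤ L) → VV Ω v ≤ 1 / 100 + C1 * EV Ω fun x => ‖fderiv ℝ v x‖ ^ 2 := by
    intro v L hv hv1 hvL
    have hB : BL (max 1 L) v := ⟨hv, fun y => (hv1 y).trans (le_max_left _ _),
      fun y => (hvL y).trans (le_max_right _ _)⟩
    have h1 := H n q (dn (closure Ω)) e g r s hsb hg hr hspos hcov hconc _ v hB hv1
    unfold Vr Dr at h1
    rw [hint, hint, hint, ← hC1] at h1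
    exact h1
  -- the scale
  have hrs : r ≤ 16 / 3 * D * Real.sqrt s := by
    obtain ⟨b, hb0, hbr⟩ := hsec
    have hbn : 0 < ‖b‖ := norm_pos_iff.2 hb0
    obtain ⟨u, hu⟩ : ∃ u, u = ‖b‖⁻¹ • b := ⟨_, rfl⟩
    have hu1 : ‖u‖ = 1 := by rw [hu, norm_smul, norm_inv, norm_norm, inv_mul_cancel₀ hbn.ne']
    have hsu : sec Ω u = sec Ω b := by rw [hu]; exact sec_smul Ω (inv_ne_zero hbn.ne') b
    have h1 := sec_lower ho hc hb h0 hsym hu1
    obtain ⟨hf, -, -⟩ := hs (Fin n) Ω ho hc hb h0 hsym u hu1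
    rw [← hsu] at hbr
    obtain ⟨σ, hσ⟩ : ∃ σ, σ = (sec Ω u).toReal := ⟨_, rfl⟩
    have h2 := ENNReal.toReal_mono (ENNReal.mul_ne_top ENNReal.ofReal_ne_top hVfin) hbr
    rw [ENNReal.toReal_mul, ENNReal.toReal_mul, ENNReal.toReal_ofReal hr.le,
      ENNReal.toReal_ofReal hD, ← hσ, ← hV] at h2
    rw [← hσ, ← hV] at h1
    have hσ0 : 0 ≤ σ := by rw [hσ]; exact ENNReal.toReal_nonneg
    have h3 : Real.sqrt (EV Ω fun x => ⟪u, x⟫_ℝ ^ 2) ≤ Real.sqrt s := by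
      refine Real.sqrt_le_sqrt ?_
      have := hmax u
      rw [hu1] at this
      linarith
    have h4 : V ≤ 16 / 3 * Real.sqrt s * σ :=
      h1.trans (mul_le_mul_of_nonneg_right (by linarith) hσ0)
    have hσp : 0 < σ := by
      rcases hσ0.eq_or_lt with h | h
      · rw [← h, mul_zero] at h4
        linarith
      · exact h
    have h5 : r * σ ≤ 16 / 3 * D * Real.sqrt s * σ := by
      have := mul_le_mul_of_nonneg_left h4 hD
      linarith
    exact le_of_mul_le_mul_right h5 hσp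
  refine ⟨a, ?_, fun T hT hTΩ hTvol => ?_⟩
  · rintro rfl
    rw [norm_zero] at ha
    exact zero_ne_one ha
  by_cases hper : per T Ω = ⊤
  · rw [hper, ENNReal.mul_top (ENNReal.ofReal_pos.2 (by positivity)).ne']
    exact le_top
  obtain ⟨P, hPd⟩ : ∃ P, P = (per T Ω).toReal := ⟨_, rfl⟩
  have hP0 : 0 ≤ P := by rw [hPd]; exact ENNReal.toReal_nonneg
  have k1 := perim_of ho hc hb h0 hC10 hP hT hTΩ hTvol (perLe_toReal T Ω hper)
  rw [← hV, ← hPd] at k1
  have k2 : Real.sqrt (200 * C1) ≤ κ * (6 * (1 + D) * Real.sqrt s) := by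
    refine Real.sqrt_le_iff.2 ⟨by positivity, ?_⟩
    rw [mul_pow, hκ, Real.sq_sqrt (by positivity), hC1, mul_pow, mul_pow, Real.sq_sqrt hspos.le]
    have h1 : r ^ 2 ≤ (16 / 3 * D * Real.sqrt s) ^ 2 := pow_le_pow_left₀ hr.le hrs 2
    rw [mul_pow, mul_pow, Real.sq_sqrt hspos.le] at h1
    have h2 : r ^ 2 + s ≤ 6 ^ 2 * (1 + D) ^ 2 * s := by
      nlinarith [mul_nonneg hD hspos.le, mul_nonneg (sq_nonneg D) hspos.le]
    calc 200 * (Ca * (r ^ 2 + s)) = 200 * Ca * (r ^ 2 + s) := by ring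
      _ ≤ 200 * Ca * (6 ^ 2 * (1 + D) ^ 2 * s) := mul_le_mul_of_nonneg_left h2 (by positivity)
      _ = _ := by ring
  have k3 : V ≤ 18 * κ * (1 + D) * P * Real.sqrt s := by
    have h1 : 3 * Real.sqrt (200 * C1) * P ≤ 3 * (κ * (6 * (1 + D) * Real.sqrt s)) * P :=
      mul_le_mul_of_nonneg_right (by linarith) hP0
    linarith
  obtain ⟨hf, hsq, -⟩ := hs (Fin n) Ω ho hc hb h0 hsym a ha
  rw [← hsd, ← hV] at hsq
  obtain ⟨σ, hσ⟩ : ∃ σ, σ = (sec Ω a).toReal := ⟨_, rfl⟩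
  rw [← hσ] at hsq
  have k4 : σ ≤ 18 * Real.sqrt Cs * κ * (1 + D) * P := by
    have h1 : σ ^ 2 * s ≤ (18 * Real.sqrt Cs * κ * (1 + D) * P) ^ 2 * s := by
      refine hsq.trans ?_
      have h2 : V ^ 2 ≤ (18 * κ * (1 + D) * P * Real.sqrt s) ^ 2 := pow_le_pow_left₀ hV0.le k3 2
      rw [mul_pow _ (Real.sqrt s), Real.sq_sqrt hspos.le] at h2
      have h3 := mul_le_mul_of_nonneg_left h2 hCs.le
      have h4 : (18 * Real.sqrt Cs * κ * (1 + D) * P) ^ 2 = Cs * (18 * κ * (1 + D) * P) ^ 2 := by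
        have h5 : Real.sqrt Cs ^ 2 = Cs := Real.sq_sqrt hCs.le
        calc (18 * Real.sqrt Cs * κ * (1 + D) * P) ^ 2 =
            Real.sqrt Cs ^ 2 * (18 * κ * (1 + D) * P) ^ 2 := by ring
          _ = _ := by rw [h5]
      rw [h4]
      linarith
    exact le_of_sq_le_sq (le_of_mul_le_mul_right h1 hspos) (by positivity)
  rw [← ENNReal.ofReal_toReal hf, ← hσ, ← ENNReal.ofReal_toReal hper, ← hPd,
    ← ENNReal.ofReal_mul (by positivity)]
  exact ENNReal.ofReal_le_ofReal k4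

end Run7.h444.SR
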